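import Pool.Agent.H8.BV.Targets
import Pool.Agent.H29.BIG.MUL

/-!
# Row LSX of the board `bv_modules`: lifting germs of curves on a hypersurface
-/

set_option autoImplicit false

open MvPolynomial
open Pool.Agent.H12.ZD (pmap)
open Pool.Agent.H18.HIT Pool.Agent.H18.HX Pool.Agent.H18.VZ
open Pool.Agent.H8.BIG (KF line)
open Pool.Agent.H8.BV

namespace Pool.Agent.H21.BV

open Pool.Agent.H29.BIG (eval_map_pt jac_map_hom const_aeval)

section

variable {k A : Type} [Field k] [CommRing A] [Algebra k A] {N : ℕ}

/-- the polynomial in the first variable -/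
noncomputable def lx (s : Fin N → A) (P : Po (N + 1) k) : Polynomial A :=
  aeval (Fin.cons Polynomial.X (fun i => Polynomial.C (s i)) : Fin (N + 1) → Polynomial A) P

theorem lx_eval (s : Fin N → A) (P : Po (N + 1) k) (u : A) :
    (lx s P).eval u = aeval (Fin.cons u s : Fin (N + 1) → A) P := by
  unfold lx
  induction P using MvPolynomial.induction_on with
  | C a =>
    rw [algHom_C, algHom_C, Polynomial.algebraMap_apply, Polynomial.eval_C]
  | add p q hp hq => rw [map_add, map_add, Polynomial.eval_add, hp, hq]
  | mul_X p i hp =>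
    rw [map_mul, map_mul, Polynomial.eval_mul, hp, aeval_X, aeval_X]
    congr 1
    refine Fin.cases ?_ (fun j => ?_) i
    · simp
    · simp

theorem lx_deriv (s : Fin N → A) (P : Po (N + 1) k) :
    Polynomial.derivative (lx s P) = lx s (pderiv 0 P) := by
  unfold lx
  induction P using MvPolynomial.induction_on with
  | C a =>
    rw [algHom_C, Polynomial.algebraMap_apply, Polynomial.derivative_C, pderiv_C, map_zero]
  | add p q hp hq => simp only [map_add, hp, hq]
  | mul_X p i hp =>
    rw [map_mul, Polynomial.derivative_mul, hp, pderiv_mul, map_add, map_mul, map_mul, aeval_X]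
    congr 2
    refine Fin.cases ?_ (fun j => ?_) i
    · simp
    · simp [pderiv_X]

end

/-- uniqueness -/
theorem lx_unique {k K : Type} [Field k] [Field K] [Algebra k K] {N : ℕ} (P : Po (N + 1) k)
    (s : Fin N → PowerSeries K) (u w : PowerSeries K)
    (hu : aeval (Fin.cons u s : Fin (N + 1) → PowerSeries K) P = 0)
    (hw : aeval (Fin.cons w s : Fin (N + 1) → PowerSeries K) P = 0)
    (hc : PowerSeries.constantCoeff u = PowerSeries.constantCoeff w)
    (hd : PowerSeries.constantCoeff (aeval (Fin.cons w s : Fin (N + 1) → PowerSeries K)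
      (pderiv 0 P)) ≠ 0) : u = w := by
  obtain ⟨c, hc1⟩ := Polynomial.binomExpansion (lx s P) w (u - w)
  rw [add_sub_cancel, lx_eval, lx_eval, hu, hw, lx_deriv, lx_eval] at hc1
  have h1 : (u - w) * (aeval (Fin.cons w s : Fin (N + 1) → PowerSeries K) (pderiv 0 P) +
      c * (u - w)) = 0 := by
    linear_combination -hc1
  rcases mul_eq_zero.1 h1 with h2 | h2
  · exact sub_eq_zero.1 h2
  · exfalso
    apply hd
    have h3 := congrArg (PowerSeries.constantCoeff (R := K)) h2
    rw [map_add, map_mul, map_sub, hc, sub_self, mul_zero, add_zero, map_zero] at h3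
    exact h3

theorem pf_LSX (hFCL : Pool.Agent.H8.BIG.T_FCL) : T_LSX := by
  intro N k K _ _ _ P T x γ hP hx hj hd hγ hγ0
  have hinj : Function.Injective (algebraMap k K) := (algebraMap k K).injective
  obtain ⟨z, hz1, hz2⟩ := hFCL (N + 1) K (fun i => map (algebraMap k K) (pt P T i))
    (fun i => algebraMap k K (x i)) (Fin.cons 0 (fun i => γ i.succ)) (by
      rw [jac_map_hom, eval_map_pt]
      intro h
      exact hj ((map_eq_zero_iff _ hinj).1 h)) (by
      intro i
      rw [eval_map_pt]
      refine Fin.cases ?_ (fun j => ?_) i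
      · show PowerSeries.constantCoeff (0 : PowerSeries K) = algebraMap k K (eval x P)
        rw [hx, map_zero, map_zero]
      · exact hγ0 j.succ)
  have h0 : aeval z P = 0 := by
    have h1 := hz2 0
    rw [aeval_map_algebraMap] at h1
    exact h1
  have h1 : ∀ i : Fin N, aeval z (T i.succ) = γ i.succ := by
    intro i
    have h1 := hz2 i.succ
    rw [aeval_map_algebraMap] at h1
    exact h1
  refine ⟨z, hz1, h0, ?_⟩
  have hγc : (Fin.cons (γ 0) (fun i => γ i.succ) : Fin (N + 1) → PowerSeries K) = γ :=
    Fin.cons_self_tail γ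
  have hTc : (Fin.cons (aeval z (T 0)) (fun i => γ i.succ) : Fin (N + 1) → PowerSeries K) =
      fun i => aeval z (T i) := by
    funext i
    refine Fin.cases ?_ (fun j => ?_) i
    · rfl
    · exact (h1 j).symm
  have h2 : aeval z (T 0) = γ 0 := by
    refine lx_unique P (fun i => γ i.succ) _ _ ?_ ?_ ?_ ?_
    · rw [hTc]
      obtain ⟨B, hB⟩ := hP
      have h3 : aeval (fun i => aeval z (T i)) P = aeval z (aeval T P) := by
        rw [← comp_aeval_apply]
      rw [h3, hB, map_mul, h0, zero_mul]
    · rw [hγc]
      exact hγ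
    · rw [const_aeval z x hz1, hγ0]
      rfl
    · rw [hγc, const_aeval γ (pmap T x) hγ0]
      intro h
      exact hd ((map_eq_zero_iff _ hinj).1 h)
  intro i
  refine Fin.cases h2 (fun j => h1 j) i

end Pool.Agent.H21.BV
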